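import Pool.Agent.H18.CGR.Stmts

set_option autoImplicit false

namespace Pool.CGR

namespace PBDaux

open Finset

/-- `c_0 = 1`, `c_(n+1) = (c_n + ∑ c_l c_(n-l)) / 6` -/
noncomputable def cc : ℕ → ℝ
  | 0 => 1
  | n + 1 => (cc n + ∑ l : Fin (n + 1), cc l.1 * cc (n - l.1)) / 6
termination_by n => n
decreasing_by all_goals omega

theorem cc_zero : cc 0 = 1 := by rw [cc]

theorem cc_succ (n : ℕ) : cc (n + 1) = (cc n + ∑ l ∈ range (n + 1), cc l * cc (n - l)) / 6 := by
  rw [cc, Finset.sum_range (fun l => cc l * cc (n - l))]

theorem cc_nonneg (n : ℕ) : 0 ≤ cc n := by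
  induction n using Nat.strong_induction_on with
  | _ n ih =>
    cases n with
    | zero => rw [cc_zero]; norm_num
    | succ n =>
      rw [cc_succ]
      have h1 := ih n (by omega)
      have h2 : 0 ≤ ∑ l ∈ range (n + 1), cc l * cc (n - l) := by
        apply Finset.sum_nonneg
        intro l hl
        have hl' := Finset.mem_range.1 hl
        exact mul_nonneg (ih l (by omega)) (ih (n - l) (by omega))
      positivity

theorem conv_le (N : ℕ) : ∑ n ∈ range N, ∑ l ∈ range (n + 1), cc l * cc (n - l) ≤
    (∑ n ∈ range N, cc n) * ∑ n ∈ range N, cc n := by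
  rw [Finset.sum_range_diag_flip N (fun i j => cc i * cc j), Finset.sum_mul_sum]
  apply Finset.sum_le_sum
  intro m _
  apply Finset.sum_le_sum_of_subset_of_nonneg
  · intro x hx
    have hx' := Finset.mem_range.1 hx
    exact Finset.mem_range.2 (by omega)
  · intro i _ _
    exact mul_nonneg (cc_nonneg m) (cc_nonneg i)

theorem sum_le_two (N : ℕ) : ∑ n ∈ range N, cc n ≤ 2 := by
  induction N with
  | zero => simp
  | succ N ih =>
    rw [Finset.sum_range_succ', cc_zero]
    have h0 : 0 ≤ ∑ n ∈ range N, cc n := Finset.sum_nonneg fun n _ => cc_nonneg n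
    have h1 : ∑ n ∈ range N, cc (n + 1) =
        ((∑ n ∈ range N, cc n) + ∑ n ∈ range N, ∑ l ∈ range (n + 1), cc l * cc (n - l)) / 6 := by
      rw [← Finset.sum_add_distrib, Finset.sum_div]
      exact Finset.sum_congr rfl fun n _ => cc_succ n
    rw [h1]
    have h2 := conv_le N
    nlinarith

theorem cc_le (n : ℕ) : cc n ≤ 2 := by
  have h := sum_le_two (n + 1)
  rw [Finset.sum_range_succ] at h
  have h0 : 0 ≤ ∑ n ∈ range n, cc n := Finset.sum_nonneg fun n _ => cc_nonneg n
  linarith

theorem key {m : ℕ} {A : Type} [CStarAlgebra A] (τ : A →ₗ[ℂ] ℂ) (hτ : IsTrace τ) (y : Fin m → A)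
    (R : ℝ) (hR : 0 ≤ R) (hy : ∀ i, ‖y i‖ ≤ R) (n : ℕ) :
    ∀ u : List (Fin m), u.length = n → ‖P τ y u‖ ≤ cc n * (6 * R) ^ n := by
  induction n using Nat.strong_induction_on with
  | _ n ih =>
    intro u hu
    cases u with
    | nil =>
      simp only [List.length_nil] at hu
      subst hu
      have hnt : Nontrivial A := by
        refine ⟨⟨1, 0, fun h => ?_⟩⟩
        have h1 := hτ.one
        rw [h, map_zero] at h1
        exact zero_ne_one h1
      rw [P, cc_zero, CStarRing.norm_one]
      norm_num
    | cons j u =>
      simp only [List.length_cons] at hu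
      subst hu
      rw [P]
      have hc : cc (u.length + 1) * (6 * R) ^ (u.length + 1) =
          cc u.length * (6 * R) ^ u.length * R +
          ∑ k ∈ range (u.length + 1), (cc k * (6 * R) ^ k * R) *
            (cc (u.length - k) * (6 * R) ^ (u.length - k)) := by
        rw [cc_succ]
        have : ∑ k ∈ range (u.length + 1), (cc k * (6 * R) ^ k * R) *
            (cc (u.length - k) * (6 * R) ^ (u.length - k)) =
            ((6 * R) ^ u.length * R) * ∑ k ∈ range (u.length + 1), cc k * cc (u.length - k) := by
          rw [Finset.mul_sum]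
          refine Finset.sum_congr rfl fun k hk => ?_
          have hk' := Finset.mem_range.1 hk
          have hp : (6 * R) ^ u.length = (6 * R) ^ k * (6 * R) ^ (u.length - k) := by
            rw [← pow_add]; congr 1; omega
          rw [hp]; ring
        rw [this, pow_succ]
        ring
      rw [hc]
      have hP0 : ∀ v : List (Fin m), v.length < u.length + 1 → ∀ i, ‖P τ y v * y i‖ ≤
          cc v.length * (6 * R) ^ v.length * R := by
        intro v hv i
        refine (norm_mul_le _ _).trans ?_
        exact mul_le_mul (ih v.length hv v rfl) (hy i) (norm_nonneg _)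
          (mul_nonneg (cc_nonneg _) (by positivity))
      refine (norm_sub_le _ _).trans (add_le_add (hP0 u (by omega) j) ?_)
      refine (norm_sum_le _ _).trans (Finset.sum_le_sum fun k hk => ?_)
      have hk' := Finset.mem_range.1 hk
      have hlt : (u.take k).length = k := by rw [List.length_take]; omega
      have hld : (u.drop k).length = u.length - k := by rw [List.length_drop]
      rw [norm_smul]
      refine mul_le_mul ?_ ?_ (norm_nonneg _) ?_
      · refine (hτ.norm _).trans ?_
        have := hP0 (u.take k) (by rw [hlt]; omega) j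
        rwa [hlt] at this
      · exact ih (u.length - k) (by omega) _ hld
      · exact mul_nonneg (mul_nonneg (cc_nonneg _) (by positivity)) hR

end PBDaux

theorem pbd_thm : PBDStmt := by
  intro m A _ τ hτ y R hR hy u
  refine (PBDaux.key τ hτ y R hR hy u.length u rfl).trans ?_
  exact mul_le_mul_of_nonneg_right (PBDaux.cc_le _) (by positivity)

end Pool.CGR
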